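import Mathlib
import Pool.Agent.W570.AV.A5

/-!
# The Mahler inequality on average over the positions of the body

For every convex body `K ⊆ ℝⁿ` the mean of `1 / M_∞(K - z)` over `z ∈ K` is at most the same mean for
the simplex, which is `(n!)² / (2n+1)!`.  More generally for every weight `φ ≥ 0` the mean of
`φ(z) / M_∞(K - z)` over `z ∈ K` is at most
`∫_0^1 (s (1 - s))^n E φ(s u + (1 - s) v) ds` with independent `u, v` uniform in `K`, and for the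
simplex there is equality for every `φ`.
-/

set_option autoImplicit false

noncomputable section

open MeasureTheory
open scoped ENNReal Pointwise

namespace Pool.Agent.Results.MP_5f4cdd_gt.AveragedOverPositions

/-- convex bodies in `ℝⁿ` (in any position) -/
def Body {n : ℕ} (K : Set (Fin n → ℝ)) : Prop := Convex ℝ K ∧ IsCompact K ∧ (interior K).Nonempty

/-- The classical Mahler volume `M_∞(K) = vol(K) ∫ exp(-h_K(y)) dy`, where
`h_K(y) = sup_{x ∈ K} ⟨x, y⟩`. -/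
def mahlerInf {n : ℕ} (K : Set (Fin n → ℝ)) : ℝ≥0∞ :=
  volume K * ∫⁻ y : Fin n → ℝ, ENNReal.ofReal
    (Real.exp (-(sSup ((fun x : Fin n → ℝ => ∑ i, x i * y i) '' K))))

/-- the standard simplex `Δ_n` -/
def simplex (n : ℕ) : Set (Fin n → ℝ) := {z | (∀ i, 0 ≤ z i) ∧ ∑ i, z i ≤ 1}

/-- the mean over `z ∈ K` of `φ(z) / M_∞(K - z)` -/
def meanRecip {n : ℕ} (φ : (Fin n → ℝ) → ℝ≥0∞) (K : Set (Fin n → ℝ)) : ℝ≥0∞ :=
  (volume K)⁻¹ * ∫⁻ z in K, φ z * (mahlerInf ((fun x : Fin n → ℝ => x - z) '' K))⁻¹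

/-- `∫_0^1 (s (1 - s))^n E φ(s u + (1 - s) v) ds` with `u, v` independent and uniform in `K` -/
def segMean {n : ℕ} (φ : (Fin n → ℝ) → ℝ≥0∞) (K : Set (Fin n → ℝ)) : ℝ≥0∞ :=
  ∫⁻ s in Set.Ioo (0:ℝ) 1, ENNReal.ofReal ((s * (1 - s)) ^ n) *
    ((volume K)⁻¹ * ∫⁻ u in K, (volume K)⁻¹ * ∫⁻ v in K, φ (s • u + (1 - s) • v))

/-- (1) For every convex body `K ⊆ ℝⁿ`, the mean of `1 / M_∞(K - z)` over `z ∈ K` is at most the mean
of `1 / M_∞(Δ_n - z)` over `z ∈ Δ_n`, (2) which is `(n!)² / (2n+1)!`.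
(3) For every weight `φ`, the mean of `φ(z) / M_∞(K - z)` over `z ∈ K` is at most `segMean φ K`,
(4) with equality for the simplex.
(5) For every interior point `z` of `K`, `1 / M_∞(K - z)` is at most `1 / |K|` times the integral over
`Y ∈ ℝⁿ` of the length of `{s ∈ (0, 1) : z + Y / s ∈ K, z - Y / (1 - s) ∈ K}`. -/
theorem result :
    (∀ (n : ℕ) (K : Set (Fin n → ℝ)), Body K →
      meanRecip (fun _ => 1) K ≤ meanRecip (fun _ => 1) (simplex n)) ∧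
    (∀ n : ℕ, meanRecip (fun _ => 1) (simplex n) =
      ENNReal.ofReal ((n.factorial : ℝ) ^ 2 / (2 * n + 1).factorial)) ∧
    (∀ (n : ℕ) (K : Set (Fin n → ℝ)), Body K → ∀ φ : (Fin n → ℝ) → ℝ≥0∞, Measurable φ →
      meanRecip φ K ≤ segMean φ K) ∧
    (∀ (n : ℕ) (φ : (Fin n → ℝ) → ℝ≥0∞), Measurable φ →
      meanRecip φ (simplex n) = segMean φ (simplex n)) ∧
    (∀ (n : ℕ) (K : Set (Fin n → ℝ)), Body K → ∀ z ∈ interior K,
      (mahlerInf ((fun x : Fin n → ℝ => x - z) '' K))⁻¹ ≤ (volume K)⁻¹ *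
        ∫⁻ Y : Fin n → ℝ,
          volume {s : ℝ | s ∈ Set.Ioo (0:ℝ) 1 ∧ z + s⁻¹ • Y ∈ K ∧ z - (1 - s)⁻¹ • Y ∈ K}) := by
  refine ⟨fun n K hK => ?_, fun n => Pool.Agent.W570.AV.mean_sx,
    fun n K hK φ hφ => Pool.Agent.W570.AV.mean_le hK.1 hK.2.1 hK.2.2 φ hφ,
    fun n φ hφ => Pool.Agent.W570.AV.mean_sx_w φ hφ,
    fun n K hK z hz => Pool.Agent.W570.AV.point hK.1 hK.2.1 hz⟩
  have h1 : meanRecip (fun _ => 1) K ≤ segMean (fun _ => 1) K :=
    Pool.Agent.W570.AV.mean_le hK.1 hK.2.1 hK.2.2 _ measurable_const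
  have h2 : segMean (fun _ => 1) K =
      ENNReal.ofReal ((n.factorial : ℝ) ^ 2 / (2 * n + 1).factorial) :=
    Pool.Agent.W570.AV.seg_one hK.1 hK.2.1 hK.2.2
  have h3 : meanRecip (fun _ => 1) (simplex n) =
      ENNReal.ofReal ((n.factorial : ℝ) ^ 2 / (2 * n + 1).factorial) := Pool.Agent.W570.AV.mean_sx
  rw [h3, ← h2]
  exact h1

end Pool.Agent.Results.MP_5f4cdd_gt.AveragedOverPositions
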