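import Pool.Agent.V11188.SN.Exc

/-!
# The case `p = ∞` of the non-symmetric `L^p`-Mahler problem: the inequality in all dimensions, the
# cases of equality, and stability

For every `n ≥ 1` and every convex body `K` of `ℝⁿ`, in every position,
`M_∞(K) = |K| ∫ exp(-h_K) ≥ inf_x M_∞(Δ_n - x) = (n+1)^(n+1)/n!`,
with equality if and only if `K` is a simplex with centroid at the origin, and
`M_∞(K) ≥ (1 + c min(e(K), 1)) inf_x M_∞(Δ_n - x)`
where `c > 0` depends only on `n`, and `e(K)` is the least number such that `K` is contained in a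
simplex of volume `(1 + e(K)) |K|`.

Outline of the stability.  It is proved for all large finite `p`, with a constant independent of
`p`, and then `p → ∞`.  Near the simplex one estimates the gain in the local theorem for large
finite `p` from below by the part of the circumscribed simplex which `K` misses, both for distances
`O(1/p)` from the simplex and for larger ones.  For all other bodies there is a fixed gain by
compactness, by Mahler's inequality `p = ∞` and its cases of equality.  The excess volume vanishes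
for simplices only since a circumscribed simplex of least volume exists.
-/

set_option autoImplicit false

noncomputable section

open MeasureTheory Set
open scoped ENNReal Matrix

namespace Pool.Agent.Results.MP_5f4cdd_gt.CasePInfinity

/-- convex bodies in `ℝⁿ` (in any position) -/
def Body {n : ℕ} (K : Set (Fin n → ℝ)) : Prop := Convex ℝ K ∧ IsCompact K ∧ (interior K).Nonempty

/-- the support function `h_K(y) = sup_{x ∈ K} ⟨x, y⟩` -/
def support {n : ℕ} (K : Set (Fin n → ℝ)) (y : Fin n → ℝ) : ℝ :=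
  sSup ((fun x : Fin n → ℝ => ∑ i, x i * y i) '' K)

/-- the Mahler volume `M_∞(K) = vol(K) ∫ exp(-h_K(y)) dy` -/
def mahlerVolume {n : ℕ} (K : Set (Fin n → ℝ)) : ℝ≥0∞ :=
  volume K * ∫⁻ y : Fin n → ℝ, ENNReal.ofReal (Real.exp (-support K y))

/-- the polar body -/
def polar {n : ℕ} (K : Set (Fin n → ℝ)) : Set (Fin n → ℝ) := {y | support K y ≤ 1}

/-- the standard simplex `Δ_n` -/
def simplex (n : ℕ) : Set (Fin n → ℝ) := {z | (∀ i, 0 ≤ z i) ∧ ∑ i, z i ≤ 1}

/-- the infimum of `M_∞(Δ_n - x)` over `x ∈ Δ_n` -/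
def simplexInf (n : ℕ) : ℝ≥0∞ :=
  ⨅ x ∈ simplex n, mahlerVolume ((fun z : Fin n → ℝ => z - x) '' simplex n)

/-- `K` is a (nondegenerate) simplex -/
def IsSimplex {n : ℕ} (K : Set (Fin n → ℝ)) : Prop :=
  ∃ v : Fin (n + 1) → (Fin n → ℝ), AffineIndependent ℝ v ∧ K = convexHull ℝ (Set.range v)

/-- `K` is a simplex with centroid at the origin: the convex hull of `n + 1` affinely independent
points whose sum is `0` -/
def CentredSimplex {n : ℕ} (K : Set (Fin n → ℝ)) : Prop :=
  ∃ v : Fin (n + 1) → (Fin n → ℝ), AffineIndependent ℝ v ∧ ∑ i, v i = 0 ∧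
    K = convexHull ℝ (Set.range v)

/-- `e(K)`: the infimum of the `e ≥ 0` such that `K` is contained in a simplex of volume at most
`(1 + e) vol(K)` -/
def excess {n : ℕ} (K : Set (Fin n → ℝ)) : ℝ :=
  sInf {e : ℝ | 0 ≤ e ∧ ∃ T : Set (Fin n → ℝ), IsSimplex T ∧ K ⊆ T ∧
    (volume T).toReal ≤ (1 + e) * (volume K).toReal}

open Pool.Agent.V11188.SN

variable {n : ℕ}

lemma mv_eq (K : Set (Fin n → ℝ)) : mahlerVolume K = Mf K := by
  rw [Mf_mah]
  rfl

lemma excess_eq (K : Set (Fin n → ℝ)) : excess K = exc K := by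
  unfold excess exc
  congr 1
  ext e
  constructor
  · rintro ⟨he, T, ⟨v, hv, rfl⟩, h1, h2⟩
    exact ⟨he, v, hv, h1, h2⟩
  · rintro ⟨he, v, hv, h1, h2⟩
    exact ⟨he, _, ⟨v, hv, rfl⟩, h1, h2⟩

lemma inf_eq (hn : 1 ≤ n) : simplexInf n = ENNReal.ofReal (mv n) := by
  have hS := Pool.Agent.H131R5.LM.NB_Sn (n := n)
  apply le_antisymm
  · have h2 := iInf₂_le (f := fun (x : Fin n → ℝ) (_ : x ∈ simplex n) =>
      mahlerVolume ((fun z : Fin n → ℝ => z - x) '' simplex n))
      _ (Pool.Agent.H131R5.LM.center_mem (n := n))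
    rw [← Mf_Sn hn, ← Pool.Agent.H131R5.LM.image_Dn, ← mv_eq]
    exact h2
  · refine le_iInf₂ fun x _ => ?_
    rw [mv_eq]
    have e : (fun z : Fin n → ℝ => z - x) '' simplex n =
        (fun y : Fin n → ℝ => y + ((fun _ => 1 / ((n:ℝ) + 1)) - x)) ''
          Pool.Agent.H131R5.LM.Sn n := by
      rw [← Pool.Agent.H131R5.LM.image_Dn, Set.image_image]
      refine Set.image_congr fun z _ => ?_
      abel
    rw [e]
    refine low (hS.comp.image (by fun_prop)) ?_ ?_
    · have h5 := hS.conv.translate ((fun _ => 1 / ((n:ℝ) + 1)) - x)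
      have h6 : (fun y => ((fun _ => 1 / ((n:ℝ) + 1)) - x) + y) ''
          Pool.Agent.H131R5.LM.Sn n =
          (fun y => y + ((fun _ => 1 / ((n:ℝ) + 1)) - x)) '' Pool.Agent.H131R5.LM.Sn n :=
        image_congr fun y _ => add_comm _ _
      rwa [h6] at h5
    · have h5 : (fun y => y + ((fun _ => 1 / ((n:ℝ) + 1)) - x)) ''
          interior (Pool.Agent.H131R5.LM.Sn n) =
          interior ((fun y => y + ((fun _ => 1 / ((n:ℝ) + 1)) - x)) ''
            Pool.Agent.H131R5.LM.Sn n) :=
        (Homeomorph.addRight _).image_interior _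
      rw [← h5]
      exact Set.Nonempty.image _ ⟨0, hS.zero⟩

lemma polar_eq {K : Set (Fin n → ℝ)} (hK : IsCompact K) (hne : K.Nonempty) :
    polar K = Pool.Agent.H845R2.polc K := by
  ext y
  have hb : BddAbove ((fun x : Fin n → ℝ => ∑ i, x i * y i) '' K) :=
    (hK.image (by fun_prop)).bddAbove
  constructor
  · intro h x hx
    have h1 : support K y ≤ 1 := h
    have h2 : (∑ i, x i * y i) ≤ support K y := le_csSup hb ⟨x, hx, rfl⟩
    exact h2.trans h1
  · intro h
    show support K y ≤ 1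
    refine csSup_le (hne.image _) ?_
    rintro _ ⟨x, hx, rfl⟩
    exact h x hx

lemma tr_zero (K : Set (Fin n → ℝ)) : Pool.Agent.W570.AV.tr 0 K = K := by
  unfold Pool.Agent.W570.AV.tr
  simp

/-- **The case `p = ∞` in all dimensions: inequality, equality, stability.** -/
theorem result (n : ℕ) (hn : 1 ≤ n) :
    -- the infimum over the simplices
    simplexInf n = ENNReal.ofReal (((n : ℝ) + 1) ^ (n + 1) / n.factorial) ∧
    -- the inequality and the cases of equality
    (∀ K : Set (Fin n → ℝ), Body K → simplexInf n ≤ mahlerVolume K ∧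
      (mahlerVolume K = simplexInf n ↔ CentredSimplex K)) ∧
    -- stability
    (∃ c : ℝ, 0 < c ∧ ∀ K : Set (Fin n → ℝ), Body K →
      ENNReal.ofReal (1 + c * min (excess K) 1) * simplexInf n ≤ mahlerVolume K) ∧
    (∀ K : Set (Fin n → ℝ), Body K → 0 ≤ excess K ∧ (excess K = 0 ↔ IsSimplex K)) ∧
    -- the form with the polar body
    (∀ K : Set (Fin n → ℝ), Body K → 0 ∈ interior K →
      mahlerVolume K = n.factorial * volume K * volume (polar K)) := by
  refine ⟨inf_eq hn, fun K hK => ⟨?_, ?_⟩, ?_, fun K hK => ⟨?_, ?_⟩, fun K hK h0 => ?_⟩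
  · rw [inf_eq hn, mv_eq]
    exact low hK.2.1 hK.1 hK.2.2
  · rw [inf_eq hn, mv_eq]
    exact inf_eq_iff hn hK.2.1 hK.1 hK.2.2
  · obtain ⟨c, hc, h⟩ := inf_stab hn
    refine ⟨c, hc, fun K hK => ?_⟩
    rw [inf_eq hn, mv_eq, excess_eq, mul_comm]
    exact h K hK.2.1 hK.1 hK.2.2
  · rw [excess_eq]
    exact exc_nonneg K
  · rw [excess_eq]
    exact exc_zero hK.2.1 hK.2.2
  · have h := Pool.Agent.W570.AV.mah_eq hK.1 hK.2.1 h0
    rw [tr_zero] at h
    rw [mv_eq, Mf_mah, h, polar_eq hK.2.1 ⟨0, interior_subset h0⟩]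
    ring

end Pool.Agent.Results.MP_5f4cdd_gt.CasePInfinity
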