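import Pool.Agent.V11188.CN.F

/-!
# A continuity method for the non-symmetric `L^p`-Mahler conjecture

In every dimension `n ≥ 1`:

* for every `P > 0` the simplex is a local minimiser of `M_p` (with the cases of equality) in one
  neighbourhood which serves all exponents `p ∈ [P, ∞)`;
* the set of the exponents `p` for which the inequality of Q1 holds for all convex bodies, with
  equality only for the simplices with centroid at the origin, is open;
* either this set is all of `(0, ∞)`, or there is `p₁ > 0` such that it contains `(p₁, ∞)`, the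
  inequality of Q1 holds at `p₁` for all convex bodies, and equality holds there for a convex body
  which is not a simplex.

Outline.  For bounded `p` the local argument (a Hessian computation with first order gain along the
facets of the simplex) is uniform because the weights of the functional depend continuously on `p`;
for large `p` one neighbourhood is known.  The functions `p ↦ M_p(K)` are monotone, and a sequence
of counterexamples with exponents tending to `p` has, after linear maps, a convergent subsequence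
(the origin cannot tend to the boundary); the limit is a minimiser for `p`, so a simplex with
centroid at the origin, which contradicts local minimality.
-/

set_option autoImplicit false

noncomputable section

open MeasureTheory
open scoped ENNReal

namespace Pool.Agent.Results.MP_5f4cdd_gt.ContinuityMethod

/-- convex bodies in `ℝⁿ` (in any position) -/
def Body {n : ℕ} (K : Set (Fin n → ℝ)) : Prop := Convex ℝ K ∧ IsCompact K ∧ (interior K).Nonempty

/-- The `L^p`-Mahler volume `M_p(K) = vol(K) ∫ exp(-h_{p,K}(y)) dy` for `0 < p < ∞`, where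
`exp(-h_{p,K}(y)) = ((1/vol K) ∫_K exp(p⟨x,y⟩) dx)^(-1/p)`. -/
def mahlerVolume {n : ℕ} (p : ℝ) (K : Set (Fin n → ℝ)) : ℝ≥0∞ :=
  volume K * ∫⁻ y : Fin n → ℝ, ENNReal.ofReal
    (((∫ x in K, Real.exp (p * ∑ i, x i * y i)) / (volume K).toReal) ^ (-(1 / p)))

/-- the standard simplex `Δ_n` -/
def simplex (n : ℕ) : Set (Fin n → ℝ) := {z | (∀ i, 0 ≤ z i) ∧ ∑ i, z i ≤ 1}

/-- the infimum of `M_p(Δ_n - x)` over `x ∈ Δ_n` -/
def simplexInf (n : ℕ) (p : ℝ) : ℝ≥0∞ :=
  ⨅ x ∈ simplex n, mahlerVolume p ((fun z : Fin n → ℝ => z - x) '' simplex n)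

/-- `K` is a simplex with centroid at the origin: the convex hull of `n + 1` affinely independent
points whose sum is `0` -/
def CentredSimplex {n : ℕ} (K : Set (Fin n → ℝ)) : Prop :=
  ∃ v : Fin (n + 1) → (Fin n → ℝ), AffineIndependent ℝ v ∧ ∑ i, v i = 0 ∧
    K = convexHull ℝ (Set.range v)

/-- `K` is a simplex, in any position: the convex hull of `n + 1` affinely independent points -/
def IsSimplex {n : ℕ} (K : Set (Fin n → ℝ)) : Prop :=
  ∃ v : Fin (n + 1) → (Fin n → ℝ), AffineIndependent ℝ v ∧ K = convexHull ℝ (Set.range v)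

/-- the inequality of Q1 for the body `K` and the exponent `p`, with the case of equality -/
def Holds {n : ℕ} (p : ℝ) (K : Set (Fin n → ℝ)) : Prop :=
  simplexInf n p ≤ mahlerVolume p K ∧ (mahlerVolume p K = simplexInf n p ↔ CentredSimplex K)

/-- Q1 in dimension `n` for the exponent `p`, with the case of equality -/
def GoodExponent (n : ℕ) (p : ℝ) : Prop := ∀ K : Set (Fin n → ℝ), Body K → Holds p K

open Pool.Agent.H131R5.LM Pool.Agent.H131R5.LC Pool.Agent.W679.B Pool.Agent.V11188.CN

/-- the value of the infimum is the value at the centroid -/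
lemma infp_eq {n : ℕ} {p : ℝ} (hp : 0 < p) : simplexInf n p = Mp p (Sn n) := by
  apply le_antisymm
  · have h2 := iInf₂_le (f := fun (x : Fin n → ℝ) (_ : x ∈ simplex n) =>
      mahlerVolume p ((fun z : Fin n → ℝ => z - x) '' simplex n))
      _ (Pool.Agent.H131R5.LM.center_mem (n := n))
    rw [← Pool.Agent.H131R5.LM.image_Dn]
    exact h2
  · refine le_iInf₂ fun x _ => ?_
    have h := Pool.Agent.TH649.LOC.Mp_shift_le (n := n) hp (x - fun _ => 1 / ((n:ℝ) + 1))
    have e : (fun y : Fin n → ℝ => y - (x - fun _ => 1 / ((n:ℝ) + 1))) ''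
        Pool.Agent.H131R5.LM.Sn n = (fun z : Fin n → ℝ => z - x) '' simplex n := by
      rw [← Pool.Agent.H131R5.LM.image_Dn, Set.image_image]
      refine Set.image_congr fun z _ => ?_
      abel
    rw [e] at h
    exact h

/-- the translation between the two forms of the inequality with its case of equality -/
lemma holds_iff {n : ℕ} {p : ℝ} (hp : 0 < p) {K : Set (Fin n → ℝ)} : Holds p K ↔ Ok p K := by
  have hcen : CentredSimplex K ↔ ∃ M : (Fin n → ℝ) ≃ₗ[ℝ] (Fin n → ℝ), K = M '' Sn n :=
    (Pool.Agent.TH649.LOC.centred_iff K).symm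
  unfold Holds
  rw [infp_eq hp, hcen]
  constructor
  · rintro ⟨h1, h2⟩
    refine ⟨h1, fun hT => lt_of_le_of_ne h1 fun he => ?_⟩
    obtain ⟨M, hM⟩ := h2.1 he.symm
    refine hT M 0 (hM.trans ?_)
    simp
  · rintro ⟨h1, h2⟩
    refine ⟨h1, fun he => ?_, ?_⟩
    · by_contra hcon
      have h3 : Mp p (Sn n) < Mp p K := h2 fun M x0 hM => hcon ⟨M, by
        have h4 := (Pool.Agent.TH649.LOC.Mp_affine hp M x0).2 (by rw [← hM]; exact he)
        rw [hM, h4]
        simp⟩
      exact h3.ne' he
    · rintro ⟨M, rfl⟩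
      exact Mp_image hp M (NB_Sn (n := n)).comp ⟨0, (NB_Sn (n := n)).zero⟩

lemma good_iff {n : ℕ} {p : ℝ} (hp : 0 < p) : GoodExponent n p ↔ GoodP n p :=
  ⟨fun h K hK hv hi => (holds_iff hp).1 (h K ⟨hv, hK, hi⟩),
    fun h K hK => (holds_iff hp).2 (h K hK.2.1 hK.1 hK.2.2)⟩

/-- **A continuity method for the non-symmetric `L^p`-Mahler conjecture.** -/
theorem result (n : ℕ) (hn : 1 ≤ n) :
    -- local minimality, uniformly for the exponents in `[P, ∞)`
    (∀ P : ℝ, 0 < P → ∃ δ : ℝ, 0 < δ ∧ ∀ p : ℝ, P ≤ p →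
      ∀ K : Set (Fin n → ℝ), Body K → ∀ Q : Finset (Fin n → ℝ), Q.card ≤ n + 1 →
        K ⊆ convexHull ℝ (Q : Set (Fin n → ℝ)) →
        volume (convexHull ℝ (Q : Set (Fin n → ℝ))) ≤ ENNReal.ofReal (1 + δ) * volume K →
        Holds p K) ∧
    -- the set of good exponents is open
    IsOpen {p : ℝ | 0 < p ∧ GoodExponent n p} ∧
    -- all exponents are good, or there is a first exponent at which a body that is not a simplex gives equality
    ((∀ p : ℝ, 0 < p → GoodExponent n p) ∨
      ∃ p₁ : ℝ, 0 < p₁ ∧ (∀ p : ℝ, p₁ < p → GoodExponent n p) ∧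
        (∀ K : Set (Fin n → ℝ), Body K → simplexInf n p₁ ≤ mahlerVolume p₁ K) ∧
        ∃ K : Set (Fin n → ℝ), Body K ∧ ¬ IsSimplex K ∧
          mahlerVolume p₁ K = simplexInf n p₁) := by
  refine ⟨fun P hP => ?_, ?_, ?_⟩
  · obtain ⟨δ, hδ, h⟩ := loc_all hn hP
    exact ⟨δ, hδ, fun p hp K hK Q hQ hKQ hv => (holds_iff (hP.trans_le hp)).2
      (h p hp K hK.2.1 hK.1 hK.2.2 Q hQ hKQ hv)⟩
  · rw [Metric.isOpen_iff]
    rintro p ⟨hp, hg⟩
    obtain ⟨ε, hε, h⟩ := good_open hn hp ((good_iff hp).1 hg)
    refine ⟨min ε p, lt_min hε hp, fun q hq => ?_⟩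
    rw [Metric.mem_ball, Real.dist_eq] at hq
    have hq0 : 0 < q := by
      have h1 := hq.trans_le (min_le_right _ _)
      rw [abs_lt] at h1
      linarith
    exact ⟨hq0, (good_iff hq0).2 (h q (hq.trans_le (min_le_left _ _)))⟩
  · rcases dichotomy hn with h | ⟨p₁, hp₁, hgt, hle, K, hK, hv, hi, hne, heq⟩
    · exact Or.inl fun p hp => (good_iff hp).2 (h p hp)
    · refine Or.inr ⟨p₁, hp₁, fun p hp => (good_iff (hp₁.trans hp)).2 (hgt p hp),
        fun K hK => ?_, K, ⟨hv, hK, hi⟩, fun hc => ?_, ?_⟩
      · rw [infp_eq hp₁]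
        exact hle K hK.2.1 hK.1 hK.2.2
      · obtain ⟨v, hv1, hv2⟩ := hc
        have hQ : K = convexHull ℝ ((Finset.univ.image v : Finset (Fin n → ℝ)) :
            Set (Fin n → ℝ)) := by
          rw [hv2, Finset.coe_image, Finset.coe_univ, Set.image_univ]
        obtain ⟨M, x0, hM⟩ := simplex_param (Finset.univ.image v)
          (Finset.card_image_le.trans (by simp)) (hQ ▸ hi)
        exact hne M x0 (hQ.trans hM)
      · rw [infp_eq hp₁]
        exact heq

end Pool.Agent.Results.MP_5f4cdd_gt.ContinuityMethod
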