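import Pool.Agent.V11188.SN.Exc

/-!
# Stability in the non-symmetric `L^p`-Mahler inequality for all large `p`

For a convex body `K` of `ℝⁿ` let `e(K) ≥ 0` be the least number such that `K` is contained in a
simplex of volume `(1 + e(K)) |K|`.  For every `n ≥ 1` there are `c > 0` and `p₀` such that for all
`p ≥ p₀` and all convex bodies `K`, in every position,
`M_p(K) ≥ (1 + c min(e(K), 1)) inf_x M_p(Δ_n - x)`.

Outline.  Near the simplex one estimates the gain in the local theorem for large `p` from below by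
the part of the circumscribed simplex `T` which `K` misses: if `K` is at distance `O(1/p)` from `T`
this is a first order computation (the weight of the missing part in the tangent inequality at `T`
is larger than the loss of volume by a fixed factor), and for larger distances `δ` there is a gain
`e^{cδ}`.  For all other bodies there is a fixed gain by compactness, by Mahler's inequality `p = ∞`
and its cases of equality.
-/

set_option autoImplicit false

noncomputable section

open MeasureTheory Set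
open scoped ENNReal Matrix

namespace Pool.Agent.Results.MP_5f4cdd_gt.StabilityLargeP

/-- convex bodies in `ℝⁿ` (in any position) -/
def Body {n : ℕ} (K : Set (Fin n → ℝ)) : Prop := Convex ℝ K ∧ IsCompact K ∧ (interior K).Nonempty

/-- The `L^p`-Mahler volume `M_p(K) = vol(K) ∫ exp(-h_{p,K}(y)) dy` for `0 < p < ∞`, where
`exp(-h_{p,K}(y)) = ((1/vol K) ∫_K exp(p⟨x,y⟩) dx)^(-1/p)`. -/
def mahlerVolume {n : ℕ} (p : ℝ) (K : Set (Fin n → ℝ)) : ℝ≥0∞ :=
  volume K * ∫⁻ y : Fin n → ℝ, ENNReal.ofReal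
    (((∫ x in K, Real.exp (p * ∑ i, x i * y i)) / (volume K).toReal) ^ (-(1 / p)))

/-- the standard simplex `Δ_n` -/
def simplex (n : ℕ) : Set (Fin n → ℝ) := {z | (∀ i, 0 ≤ z i) ∧ ∑ i, z i ≤ 1}

/-- the infimum of `M_p(Δ_n - x)` over `x ∈ Δ_n` -/
def simplexInf (n : ℕ) (p : ℝ) : ℝ≥0∞ :=
  ⨅ x ∈ simplex n, mahlerVolume p ((fun z : Fin n → ℝ => z - x) '' simplex n)

/-- `K` is a (nondegenerate) simplex -/
def IsSimplex {n : ℕ} (K : Set (Fin n → ℝ)) : Prop :=
  ∃ v : Fin (n + 1) → (Fin n → ℝ), AffineIndependent ℝ v ∧ K = convexHull ℝ (Set.range v)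

/-- `e(K)`: the infimum of the `e ≥ 0` such that `K` is contained in a simplex of volume at most
`(1 + e) vol(K)` -/
def excess {n : ℕ} (K : Set (Fin n → ℝ)) : ℝ :=
  sInf {e : ℝ | 0 ≤ e ∧ ∃ T : Set (Fin n → ℝ), IsSimplex T ∧ K ⊆ T ∧
    (volume T).toReal ≤ (1 + e) * (volume K).toReal}

open Pool.Agent.V11188.SN

variable {n : ℕ}

lemma excess_eq (K : Set (Fin n → ℝ)) : excess K = exc K := by
  unfold excess exc
  congr 1
  ext e
  constructor
  · rintro ⟨he, T, ⟨v, hv, rfl⟩, h1, h2⟩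
    exact ⟨he, v, hv, h1, h2⟩
  · rintro ⟨he, v, hv, h1, h2⟩
    exact ⟨he, _, ⟨v, hv, rfl⟩, h1, h2⟩

/-- the infimum is not larger than the value at the centroid -/
lemma infp_le (p : ℝ) :
    simplexInf n p ≤ Pool.Agent.H131R5.LM.Mp p (Pool.Agent.H131R5.LM.Sn n) := by
  have h2 := iInf₂_le (f := fun (x : Fin n → ℝ) (_ : x ∈ simplex n) =>
    mahlerVolume p ((fun z : Fin n → ℝ => z - x) '' simplex n))
    _ (Pool.Agent.H131R5.LM.center_mem (n := n))
  rw [← Pool.Agent.H131R5.LM.image_Dn]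
  exact h2

/-- **Stability in the non-symmetric `L^p`-Mahler inequality for all large `p`.** -/
theorem result (n : ℕ) (hn : 1 ≤ n) :
    (∃ c p₀ : ℝ, 0 < c ∧ 0 < p₀ ∧ ∀ p : ℝ, p₀ ≤ p → ∀ K : Set (Fin n → ℝ), Body K →
      ENNReal.ofReal (1 + c * min (excess K) 1) * simplexInf n p ≤ mahlerVolume p K) ∧
    (∀ K : Set (Fin n → ℝ), Body K → 0 ≤ excess K ∧ (excess K = 0 ↔ IsSimplex K)) := by
  refine ⟨?_, fun K hK => ⟨?_, ?_⟩⟩
  · obtain ⟨c, p0, hc, hp0, h⟩ := stab hn
    refine ⟨c, p0, hc, hp0, fun p hp K hK => ?_⟩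
    have h1 := h p hp K hK.2.1 hK.1 hK.2.2 (exc K) (exc_nonneg K) (exc_far hK.2.1 hK.2.2)
    rw [excess_eq, mul_comm]
    exact le_trans (mul_le_mul' (infp_le p) le_rfl) h1
  · rw [excess_eq]
    exact exc_nonneg K
  · rw [excess_eq]
    exact exc_zero hK.2.1 hK.2.2

end Pool.Agent.Results.MP_5f4cdd_gt.StabilityLargeP
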